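import Pool.Agent.X255.RH.Fx2
import Pool.Agent.X255.RH.Mea3

/-!
# `℘ (u_i (z))`, `ζ (u_i (z))`, `exp (l_k (z))` for algebraic functions `u_i`, `l_k`, at all roots of almost all polynomials

Let `u_1, …, u_n`, `l_1, …, l_s` be algebraic functions, analytic on a connected open set `V`, and let `Λ_1, …, Λ_q` be
pairwise non-isogenous lattices (`q = 1` in the problem), such that the `u_i` belonging to each lattice are linearly
independent over its complex multiplications modulo constants, and no nontrivial integral combination of the `l_k` is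
constant. If these functions are defined over the algebraic numbers, then `u_i (z)` and `l_k (z)` are algebraic for
algebraic `z`, and for algebraic invariants the elliptic analogue of Schanuel's conjecture predicts the algebraic
independence of the numbers `℘ (u_i (z))`, `ζ (u_i (z))` (and its extension to products with tori that of these numbers
and the `exp (l_k (z))`). We prove this in bounded complexity, jointly for `z` ALL roots of a polynomial in `V` (at
distance at least `1 / (k + 1)` from the complement), for 100% of the integral polynomials of degree `g`, ordered by the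
maximum `T` of the absolute values of the coefficients: the numbers satisfy no relation whose degree, and the degree
of whose coefficient field, is at most `ω (T)`, and whose coefficients are of size at most `T ^ ω (T)`, where
`ω (T) → ∞`; the coefficients may also contain arbitrary fixed complex numbers, for instance the invariants, periods
and quasi-periods. We also prove lower bounds, with arbitrary complex coefficients. Our hand-in `ConjugatePoints` is
about exact relations for one lattice, `u = z` and `l_k = λ_k z`.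

Proof: `Pool.Agent.X255.NP` and `Pool.Agent.Y890.MV` (nonstandard versions of the Bombieri-Pila method), Ax's theorem in
the form `Pool.Agent.Y776.Cv.fix_sub`, and `Pool.Agent.X255.RH` (independence of functions of different variables;
almost no integral polynomial has close roots).
-/

set_option autoImplicit false

open Polynomial Filter NumberField
open scoped Classical

namespace Pool.Agent.Results.MP_2ad15a_nt.AlgebraicFunctions

/-- The Weierstrass zeta function `ζ(z) = ∑ (1/(z-l) + 1/l + z/l²)`, the sum over the lattice (the summand of `l = 0` is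
`1/z`, since `1/0 = 0` in Lean). -/
noncomputable def ζ (L : PeriodPair) (z : ℂ) : ℂ :=
  ∑' l : L.lattice, (1 / (z - l) + 1 / l + z / l ^ 2)

/-- an algebraic function on `V` -/
def Algebraic (V : Set ℂ) (f : ℂ → ℂ) : Prop := ∃ Q : ℂ[X][X], Q ≠ 0 ∧ ∀ z ∈ V, Q.evalEval z (f z) = 0

/-- Algebraic functions `l_k` and `u_i`. -/
structure Data (V : Set ℂ) {s n q : ℕ} (l : Fin s → ℂ → ℂ) (Λ : Fin q → PeriodPair)
    (ty : Fin n → Fin q) (u : Fin n → ℂ → ℂ) : Prop where
  isOpen : IsOpen V
  isPreconnected : IsPreconnected V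
  nonempty : V.Nonempty
  analytic_l : ∀ k, AnalyticOnNhd ℂ (l k) V
  algebraic_l : ∀ k, Algebraic V (l k)
  /-- no nontrivial combination with integral coefficients of the `l_k` is constant -/
  independent_l : ∀ (b : Fin s → ℤ) (c : ℂ), (∀ z ∈ V, ∑ k, (b k : ℂ) * l k z = c) → b = 0
  /-- the elliptic curves are pairwise not isogenous -/
  nonisogenous : ∀ c c', c ≠ c' → ∀ α : ℂ, (∀ w ∈ (Λ c).lattice, α * w ∈ (Λ c').lattice) → α = 0
  analytic_u : ∀ i, AnalyticOnNhd ℂ (u i) V
  algebraic_u : ∀ i, Algebraic V (u i)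
  u_notMem : ∀ i, ∀ z ∈ V, u i z ∉ (Λ (ty i)).lattice
  /-- the `u_i` of type `c` are independent over the complex multiplications of `Λ_c` modulo constants -/
  independent_u : ∀ (c : Fin q) (a : Fin n → ℂ) (b : ℂ), (∀ i, ∀ w ∈ (Λ c).lattice, a i * w ∈ (Λ c).lattice) →
    (∀ i, ty i ≠ c → a i = 0) → (∀ z ∈ V, ∑ i, a i * u i z = b) → a = 0

/-- the numbers `exp (l_k (z))`, `℘ (u_i (z))`, `ζ (u_i (z))` -/
noncomputable def value {s n q : ℕ} (l : Fin s → ℂ → ℂ) (Λ : Fin q → PeriodPair)
    (ty : Fin n → Fin q) (u : Fin n → ℂ → ℂ) (z : ℂ) : Fin s ⊕ (Fin n ⊕ Fin n) → ℂ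
  | Sum.inl k => Complex.exp (l k z)
  | Sum.inr (Sum.inl i) => (Λ (ty i)).weierstrassP (u i z)
  | Sum.inr (Sum.inr i) => ζ (Λ (ty i)) (u i z)

/-- the polynomial `a_g X ^ g + … + a_0` -/
noncomputable def poly {g : ℕ} (a : Fin (g + 1) → ℤ) : ℂ[X] := ∑ i, C (a i : ℂ) * X ^ (i : ℕ)

/-- the roots of the polynomial in the set `V` -/
noncomputable def rootsIn (V : Set ℂ) {g : ℕ} (a : Fin (g + 1) → ℤ) : Finset ℂ :=
  (poly a).roots.toFinset.filter fun z => z ∈ V

/-- The numbers `x q`, `q ∈ Q`, satisfy no relation of degree at most `k` in each of them with coefficients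
`∑ ξ b * c b`, `b < k`, where the `c b` are integers of a number field of degree at most `k`, all of whose conjugates
are of absolute value at most `T ^ k`, except the relations all of whose coefficients vanish. -/
def Unrelated {Q : Type} [Fintype Q] [DecidableEq Q] (ξ : ℕ → ℂ) (k : ℕ) (T : ℝ) (x : Q → ℂ) : Prop :=
  ∀ (F : Type) [Field F] [NumberField F], Module.finrank ℚ F ≤ k → ∀ (io : F →+* ℂ)
    (c : (Q → Fin (k + 1)) → Fin k → 𝓞 F), (∀ l b (φ : F →+* ℂ), ‖φ (c l b : F)‖ ≤ T ^ k) →
    ∑ l, (∑ b : Fin k, ξ b * io (c l b : F)) * ∏ q, x q ^ (l q : ℕ) = 0 → ∀ l, ∑ b : Fin k, ξ b * io (c l b : F) = 0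

/-- Every polynomial `P` of degree at most `k` in each of the numbers `x q`, with coefficients `∑ ξ b * c b`, `b < k`,
where the `c b` are rational integers of absolute value at most `T ^ k`, satisfies `|P (x)| ≥ T ^ (-B) |p|` for each of
its coefficients `p`. -/
def Measure {Q : Type} [Fintype Q] [DecidableEq Q] (ξ : ℕ → ℂ) (k : ℕ) (B T : ℝ) (x : Q → ℂ) : Prop :=
  ∀ c : (Q → Fin (k + 1)) → Fin k → ℤ, (∀ l b, |(c l b : ℝ)| ≤ T ^ k) → ∀ l₀,
    T ^ (-B) * ‖∑ b : Fin k, ξ b * (c l₀ b : ℂ)‖ ≤
      ‖∑ l, (∑ b : Fin k, ξ b * (c l b : ℂ)) * ∏ q, x q ^ (l q : ℕ)‖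

/-- the `a` with `|a_i| ≤ T` -/
noncomputable def box (g T : ℕ) : Finset (Fin (g + 1) → ℤ) := Fintype.piFinset fun _ => Finset.Icc (-(T : ℤ)) T

/-- the points whose distance to the complement of `V` is at least `1 / (k + 1)` -/
def region (V : Set ℂ) (k : ℕ) : Set ℂ := {z | Metric.ball z (1 / ((k : ℝ) + 1)) ⊆ V}

/-- the numbers `exp (l_k (z))`, `℘ (u_i (z))`, `ζ (u_i (z))`, `z` all roots of `a` in the set `K` -/
noncomputable def numbers {g s n q : ℕ} (K : Set ℂ) (l : Fin s → ℂ → ℂ) (Λ : Fin q → PeriodPair)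
    (ty : Fin n → Fin q) (u : Fin n → ℂ → ℂ) (a : Fin (g + 1) → ℤ)
    (x : {z // z ∈ rootsIn K a} × (Fin s ⊕ (Fin n ⊕ Fin n))) : ℂ :=
  value l Λ ty u x.1 x.2

/-- `a` is of degree `g`, with simple roots, and the numbers at the roots in `region V k` are unrelated -/
def Good {g s n q : ℕ} (V : Set ℂ) (l : Fin s → ℂ → ℂ)
    (Λ : Fin q → PeriodPair) (ty : Fin n → Fin q) (u : Fin n → ℂ → ℂ) (ξ : ℕ → ℂ) (k : ℕ) (T : ℝ) (a : Fin (g + 1) → ℤ) : Prop :=
  a (Fin.last g) ≠ 0 ∧ (poly a).Separable ∧ Unrelated ξ k T (numbers (region V k) l Λ ty u a)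

/-- `a` is of degree `g`, with simple roots, and the numbers at the roots in `region V k` satisfy the lower bounds -/
def GoodM {g s n q : ℕ} (V : Set ℂ) (l : Fin s → ℂ → ℂ)
    (Λ : Fin q → PeriodPair) (ty : Fin n → Fin q) (u : Fin n → ℂ → ℂ) (ξ : ℕ → ℂ) (k : ℕ) (B T : ℝ) (a : Fin (g + 1) → ℤ) : Prop :=
  a (Fin.last g) ≠ 0 ∧ (poly a).Separable ∧ Measure ξ k B T (numbers (region V k) l Λ ty u a)

/-- `a` is of degree `g`, its roots are simple, of absolute value at most `R`, at distance at least `η` from each other,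
and the roots in `V` are at distance at least `η` from the complement of `V` -/
def Position (V : Set ℂ) (R η : ℝ) {g : ℕ} (a : Fin (g + 1) → ℤ) : Prop :=
  a (Fin.last g) ≠ 0 ∧ (poly a).Separable ∧ ∀ z, (poly a).eval z = 0 → ‖z‖ ≤ R ∧
    (∀ w, (poly a).eval w = 0 → w ≠ z → η ≤ ‖z - w‖) ∧ (z ∈ V → Metric.ball z η ⊆ V)

theorem indep {s n q : ℕ} (hpos : 0 < s + n) {V : Set ℂ} {l : Fin s → ℂ → ℂ}
    {Λ : Fin q → PeriodPair} {ty : Fin n → Fin q} {u : Fin n → ℂ → ℂ} (hd : Data V l Λ ty u) :
    (∀ w, AnalyticOnNhd ℂ (fun z => value l Λ ty u z w) V) ∧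
      Pool.Agent.X255.RH.Indep V (fun w z => value l Λ ty u z w) := by
  have hF : Pool.Agent.Y776.Cv.FxM V Λ ty u l :=
    { isOpen := hd.isOpen
      conn := hd.isPreconnected
      ni := hd.nonisogenous
      ua := hd.analytic_u
      un := hd.u_notMem
      ui := fun c a b h1 h2 h3 => hd.independent_u c a b h1 h2 h3
      la := hd.analytic_l
      li := hd.independent_l }
  have hval : (fun w z => value l Λ ty u z w) =
      fun i => Pool.Agent.Y776.Cv.yf Λ ty u l (Pool.Agent.X255.RH.gD n s i) := by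
    funext i z
    rcases i with k | i | i <;> rfl
  refine ⟨fun w => ?_, ?_⟩
  · have h1 := Pool.Agent.Y776.Cv.yf_an hF (Pool.Agent.X255.RH.gD n s w)
    rw [← congrFun hval w] at h1
    exact h1
  · rw [hval]
    exact Pool.Agent.X255.RH.fx_lw hF hpos hd.nonempty hd.algebraic_l hd.algebraic_u

/-- **Theorem.** Let `g ≥ 1` and let `l_k`, `u_i` be as in `Data`, at least one function in all.
(1) For every sequence `ξ` there is a monotone `ω`, `ω(T) → ∞`, such that the proportion of the polynomials with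
`|a_i| ≤ T` which are not `Good` with `k = ω(T)` is at most `1 / ω(T)`.
(2) For every `k ≥ 1` there are `B` and `T₀` such that for `T ≥ T₀` and all `ξ` (which may depend on `T`) the proportion
of the polynomials with `|a_i| ≤ T` which are not `GoodM` is at most `1 / k`.
(3) For fixed `k ≥ 1`, `R`, `η > 0` and `ε > 0` there are `B`, `C` such that for all `ξ` the lower bounds
`Measure ξ k B T` for the numbers at the roots in `V` hold for all but `C T ^ (g + ε)` of the polynomials with
`|a_i| ≤ T` whose roots are in the compact position `Position V R η` (there are about `(2 T) ^ (g + 1)` polynomials).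
 -/
theorem result (g s n q : ℕ) (hg : 0 < g) (hpos : 0 < s + n) (V : Set ℂ) 
    (l : Fin s → ℂ → ℂ) (Λ : Fin q → PeriodPair) (ty : Fin n → Fin q) (u : Fin n → ℂ → ℂ) (hd : Data V l Λ ty u) :
    (∀ ξ : ℕ → ℂ, ∃ ω : ℕ → ℕ, Tendsto ω atTop atTop ∧ Monotone ω ∧ ∀ T,
      ω T * ((box g T).filter fun a => ¬ Good V l Λ ty u ξ (ω T) T a).card ≤ (box g T).card) ∧
    (∀ k : ℕ, 1 ≤ k → ∃ (B : ℝ) (T₀ : ℕ), ∀ T : ℕ, T₀ ≤ T → ∀ ξ : ℕ → ℂ,
      (k : ℝ) * ((box g T).filter fun a => ¬ GoodM V l Λ ty u ξ k B T a).card ≤ (box g T).card) ∧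
    (∀ (k : ℕ) (R η ε : ℝ), 1 ≤ k → 0 < η → 0 < ε → ∃ B C : ℝ, ∀ T : ℕ, 1 ≤ T → ∀ ξ : ℕ → ℂ,
      (((box g T).filter fun a => Position V R η a ∧ ¬ Measure ξ k B T (numbers V l Λ ty u a)).card : ℝ) ≤
        C * (T : ℝ) ^ ((g : ℝ) + ε)) := by
  have hop : IsOpen V := hd.isOpen
  have hpre : IsPreconnected V := hd.isPreconnected
  obtain ⟨han, hind⟩ := indep hpos hd

  refine ⟨fun ξ => ?_, fun k hk => ?_, fun k R η ε hk hη hε => ?_⟩
  · exact Pool.Agent.X255.RH.main_all (g := g) hg hpre hop (region V) (Pool.Agent.X255.RH.tame_deep V) han hind ξ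
  · exact Pool.Agent.X255.RH.mea_all (g := g) hg hpre hop (Pool.Agent.X255.RH.tame_deep V k) han hind k hk
  · exact Pool.Agent.X255.RH.mea_eps (g := g) hg hpre hop han hind V k R η ε hη hε

end Pool.Agent.Results.MP_2ad15a_nt.AlgebraicFunctions
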