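import Pool.Agent.X39.Near.Master
import Pool.Agent.Y627.KW.EllC

/-!
# Elliptic logarithms of ALL algebraic numbers close to any number outside a set of dimension zero

Let `L` be a lattice, `p` an elliptic logarithm, `℘(p(t)) = t`, on the connected open set `Ω`, let `λ_1, …, λ_r` be complex
numbers linearly independent over `ℚ`, `u_1, …, u_q, w` polynomials and `ξ_1, …, ξ_g` complex numbers (for instance the
invariants, periods and quasi-periods of `L`). Outside ONE set of complex numbers `x` of Hausdorff dimension `0`, for all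
number fields `F ⊂ ℂ`, all `ω > 0`, `d` and `A` there are `B` and `T₁` such that for all `T ≥ T₁` and ALL `t ∈ F` of
height at most `T` with `|t - x| ≤ T ^ (-ω)` the numbers `exp (λ_l p(t))`, `p(t)`, `ζ(p(t))` satisfy no relation of degree
at most `d` with coefficients which are polynomials of degree at most `d` in the `u_k(t) / w(t)` and the `ξ_i`,
with coefficients in `F` of height at most `T ^ A`, not even up to `T ^ (-B)`. In particular this holds at the
convergents of all irrational real numbers in `Ω` outside this set, from some point on.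
-/

set_option autoImplicit false

open MeasureTheory NumberField

namespace Pool.Agent.Results.MP_2ad15a_nt.ApproximationsOfAllNumbers

open Pool.Agent.X39.Near (Size Dependent)

/-- the Weierstrass zeta function of the lattice `L` (the term of `l = 0` is `1 / z`) -/
noncomputable def zeta (L : PeriodPair) (z : ℂ) : ℂ := ∑' l : L.lattice, (1 / (z - l) + 1 / l + z / l ^ 2)

/-- the functions `exp (λ_l p(t))`, `p(t)`, `ζ(p(t))` -/
noncomputable def values {r : ℕ} (L : PeriodPair) (lam : Fin r → ℂ) (p : ℂ → ℂ) (v : Fin r ⊕ Fin 2) (t : ℂ) : ℂ :=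
  v.elim (fun l => Complex.exp (lam l * p t)) ![p t, zeta L (p t)]

/-- **Theorem.** Let `L` be a lattice, `p` analytic on the connected open set `Ω` with values outside `L` and
`℘(p(t)) = t`; let `λ_1, …, λ_r` be linearly independent over `ℚ`, `u_k`, `w` complex polynomials, `w` without zeros on
`Ω`, and `ξ_1, …, ξ_g` complex numbers. There is a set `E` of complex numbers of Hausdorff dimension `0` such that: (1) for all `x ∈ Ω` outside `E`, all
number fields `F` with an embedding `ι` in `ℂ`, all `d`, `A` and `ω > 0` there are `B`, `T₁` such that for all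
`T ≥ T₁` and all `t ∈ F`, quotients of integers with conjugates at most `T`, with `|ι t - x| ≤ T ^ (-ω)`, the
values of these functions at `t` are not dependent; (2) for all irrational real `x ∈ Ω` outside `E` and all `d`,
`A` there is `B` such that the values at the convergents `t` of `x` are not dependent over `ℚ`, at the level of
the denominator, from some point on. -/
theorem result {r q g : ℕ} (L : PeriodPair) (lam : Fin r → ℂ)
    (hlam : ∀ c : Fin r → ℤ, ∑ l, (c l : ℂ) * lam l = 0 → c = 0)
    (Ω : Set ℂ) (hΩ : IsOpen Ω) (hΩc : IsConnected Ω) (p : ℂ → ℂ) (hp : AnalyticOnNhd ℂ p Ω)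
    (hpL : ∀ t ∈ Ω, p t ∉ L.lattice) (hpt : ∀ t ∈ Ω, L.weierstrassP (p t) = t)
    (u : Fin q → Polynomial ℂ) (w : Polynomial ℂ) (hw : ∀ t ∈ Ω, w.eval t ≠ 0) (ξ : Fin g → ℂ) :
    ∃ E : Set ℂ, dimH E = 0 ∧
      (∀ x ∈ Ω, x ∉ E → ∀ (F : Type) [Field F] [NumberField F] (ι : F →+* ℂ)
        (d A : ℕ) (ω : ℝ), 0 < ω → ∃ B T₁ : ℝ, ∀ T : ℝ, T₁ ≤ T → ∀ t : F, Size F T t →
          ‖ι t - x‖ ≤ T ^ (-ω) → ¬ Dependent (values L lam p) u w ξ F ι d A B T t) ∧
      ∀ x : ℝ, Irrational x → (x : ℂ) ∈ Ω → (x : ℂ) ∉ E → ∀ d A : ℕ, ∃ (B : ℝ) (n₀ : ℕ), ∀ k : ℕ,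
        n₀ ≤ k → ¬ Dependent (values L lam p) u w ξ ℚ (algebraMap ℚ ℂ) d A B (x.convergent k).den
          (x.convergent k) := by
  have han := fun (i : Fin r ⊕ Fin 2) (t : ℂ) (ht : t ∈ Ω) =>
    Pool.Agent.Y627.KW.fB_an L lam Ω p hp hpL i t ht
  exact Pool.Agent.X39.Near.master Ω hΩ (values L lam p) han
    (Pool.Agent.X39.Near.locInd_of hΩc.isPreconnected (values L lam p) han
      (Pool.Agent.Y627.KW.fB_indep L lam hlam Ω hΩ hΩc.nonempty p hp hpL hpt)) u w hw ξ

end Pool.Agent.Results.MP_2ad15a_nt.ApproximationsOfAllNumbers
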