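import Pool.Agent.X255.RH.Main
import Pool.Agent.Y627.KW.EllC

/-!
# Values of `exp (λ z)`, `℘ (z)`, `ζ (z)` at almost all algebraic numbers, ordered by height, jointly for all conjugates

For a lattice with algebraic invariants and algebraic numbers `p_1, …, p_n`, linearly independent over the field of complex
multiplications, the elliptic analogue of Schanuel's conjecture predicts that the `2 n` numbers `℘ (p_i)`, `ζ (p_i)` are
algebraically independent. We prove for every lattice and for 100% of the integral polynomials of degree `g`, ordered by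
the maximum `T` of the absolute values of the coefficients, that the `2 g` numbers `℘ (z)`, `ζ (z)`, `z` all roots of the
polynomial, together with the exponentials `exp (λ_l z)` (for `λ_1, …, λ_r` linearly independent over `ℚ`), satisfy no
relation whose degree, and the degree of whose coefficient field, is at most `ω (T)`, and whose coefficients are of size
at most `T ^ ω (T)`, where `ω (T) → ∞`; the coefficients may also contain arbitrary fixed complex numbers `ξ_b`, for
instance monomials in `g₂`, `g₃`, the periods and the quasi-periods.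

Proof: `Pool.Agent.X255.NP` (the norm to `ℚ` of a relation over the field generated by all roots, a nonstandard version of
the Bombieri-Pila method), the algebraic independence of the functions (`Pool.Agent.Y627.KW`), and `Pool.Agent.X255.RH`
(independence of functions of different variables; almost no integral polynomial has close roots or roots close to a
given point).
-/

set_option autoImplicit false

open Polynomial Filter NumberField
open scoped Classical

namespace Pool.Agent.Results.MP_2ad15a_nt.ConjugatePoints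

/-- The Weierstrass zeta function `ζ(z) = ∑ (1/(z-l) + 1/l + z/l²)`, the sum over the lattice (the summand of `l = 0` is
`1/z`, since `1/0 = 0` in Lean). -/
noncomputable def zeta (L : PeriodPair) (z : ℂ) : ℂ := ∑' l : L.lattice, (1 / (z - l) + 1 / l + z / l ^ 2)

/-- the numbers `exp (λ_l z)`, `℘ (z)`, `ζ (z)` -/
noncomputable def value {r : ℕ} (L : PeriodPair) (lam : Fin r → ℂ) (z : ℂ) : Fin r ⊕ Fin 2 → ℂ
  | Sum.inl l => Complex.exp (lam l * z)
  | Sum.inr i => ![L.weierstrassP z, zeta L z] i

/-- the complement of the lattice -/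
def off (L : PeriodPair) : Set ℂ := (L.lattice : Set ℂ)ᶜ

/-- the polynomial `a_g X ^ g + … + a_0` -/
noncomputable def poly {g : ℕ} (a : Fin (g + 1) → ℤ) : ℂ[X] := ∑ i, C (a i : ℂ) * X ^ (i : ℕ)

/-- the roots of the polynomial in the set `V` -/
noncomputable def rootsIn (V : Set ℂ) {g : ℕ} (a : Fin (g + 1) → ℤ) : Finset ℂ :=
  (poly a).roots.toFinset.filter fun z => z ∈ V

/-- The numbers `x q`, `q ∈ Q`, satisfy no relation of degree at most `k` in each of them with coefficients
`∑ ξ b * c b`, `b < k`, where the `c b` are integers of a number field of degree at most `k`, all of whose conjugates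
are of absolute value at most `T ^ k`, except the relations all of whose coefficients vanish. -/
def Unrelated {Q : Type} [Fintype Q] [DecidableEq Q] (ξ : ℕ → ℂ) (k : ℕ) (T : ℝ) (x : Q → ℂ) : Prop :=
  ∀ (F : Type) [Field F] [NumberField F], Module.finrank ℚ F ≤ k → ∀ (io : F →+* ℂ)
    (c : (Q → Fin (k + 1)) → Fin k → 𝓞 F), (∀ l b (φ : F →+* ℂ), ‖φ (c l b : F)‖ ≤ T ^ k) →
    ∑ l, (∑ b : Fin k, ξ b * io (c l b : F)) * ∏ q, x q ^ (l q : ℕ) = 0 → ∀ l, ∑ b : Fin k, ξ b * io (c l b : F) = 0

/-- the `a` with `|a_i| ≤ T` -/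
noncomputable def box (g T : ℕ) : Finset (Fin (g + 1) → ℤ) := Fintype.piFinset fun _ => Finset.Icc (-(T : ℤ)) T

/-- the numbers `exp (λ_l z)`, `℘ (z)`, `ζ (z)`, `z` all roots of `a` outside the lattice, are unrelated up to
complexity `k` -/
def Free {g r : ℕ} (L : PeriodPair) (lam : Fin r → ℂ) (ξ : ℕ → ℂ) (k : ℕ) (T : ℝ) (a : Fin (g + 1) → ℤ) : Prop :=
  Unrelated ξ k T fun q : {z // z ∈ rootsIn (off L) a} × (Fin r ⊕ Fin 2) => value L lam q.1 q.2

/-- `a` is of degree `g`, with simple roots, and `Free` -/
def Good {g r : ℕ} (L : PeriodPair) (lam : Fin r → ℂ) (ξ : ℕ → ℂ) (k : ℕ) (T : ℝ) (a : Fin (g + 1) → ℤ) : Prop :=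
  a (Fin.last g) ≠ 0 ∧ (poly a).Separable ∧ Free L lam ξ k T a

/-- `a` is of degree `g`, its roots are simple, of absolute value at most `R`, at distance at least `η` from each other,
and the roots in `V` are at distance at least `η` from the complement of `V` -/
def Position (V : Set ℂ) (R η : ℝ) {g : ℕ} (a : Fin (g + 1) → ℤ) : Prop :=
  a (Fin.last g) ≠ 0 ∧ (poly a).Separable ∧ ∀ z, (poly a).eval z = 0 → ‖z‖ ≤ R ∧
    (∀ w, (poly a).eval w = 0 → w ≠ z → η ≤ ‖z - w‖) ∧ (z ∈ V → Metric.ball z η ⊆ V)

theorem tame (L : PeriodPair) : Pool.Agent.X255.RH.Tame (off L) (off L) := by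
  refine Pool.Agent.X255.RH.tame_of_discrete fun R => ?_
  have h : (Metric.closedBall (0 : L.lattice) R).Finite :=
    isCompact_iff_finite.mp (isCompact_closedBall (0 : L.lattice) R)
  refine (h.image (fun l : L.lattice => (l : ℂ))).subset ?_
  rintro x ⟨hx1, hx2⟩
  refine ⟨⟨x, hx1⟩, ?_, rfl⟩
  rw [Metric.mem_closedBall] at hx2 ⊢
  exact hx2

/-- **Theorem.** Let `g ≥ 1`, `L` a lattice, `λ_1, …, λ_r` linearly independent over `ℚ`, and let `ξ` be a sequence of complex
numbers.
(1) There is a monotone `ω`, `ω(T) → ∞`, such that the proportion of the polynomials with `|a_i| ≤ T` which are not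
`Good` with `k = ω(T)` is at most `1 / ω(T)`.
(2) For fixed `k`, `R`, `η > 0` and `ε > 0`, all but `C T ^ (g + ε)` of the polynomials with `|a_i| ≤ T` whose roots
are in the compact position `Position (off L) R η` are `Free` (there are about `(2 T) ^ (g + 1)` polynomials). -/
theorem result (g r : ℕ) (hg : 0 < g) (L : PeriodPair) (lam : Fin r → ℂ)
    (hlam : ∀ c : Fin r → ℤ, ∑ l, (c l : ℂ) * lam l = 0 → c = 0) (ξ : ℕ → ℂ) :
    (∃ ω : ℕ → ℕ, Tendsto ω atTop atTop ∧ Monotone ω ∧ ∀ T,
      ω T * ((box g T).filter fun a => ¬ Good L lam ξ (ω T) T a).card ≤ (box g T).card) ∧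
    ∀ (k : ℕ) (R η ε : ℝ), 0 < η → 0 < ε → ∃ C : ℝ, ∀ T : ℕ, 1 ≤ T →
      (((box g T).filter fun a => Position (off L) R η a ∧ ¬ Free L lam ξ k T a).card : ℝ) ≤
        C * (T : ℝ) ^ ((g : ℝ) + ε) := by
  have hpre : IsPreconnected (off L) := H667R3.isPreconnected_compl L
  have hop : IsOpen (off L) := H667R3.isOpen_compl L
  have htame := tame L
  have hval : ∀ (w : Fin r ⊕ Fin 2) (z : ℂ), Pool.Agent.Y627.KW.fA L lam w z = value L lam z w := by
    rintro (l | i) z
    · rfl
    · rfl
  have han : ∀ w : Fin r ⊕ Fin 2, AnalyticOnNhd ℂ (fun z => value L lam z w) (off L) := by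
    intro w
    have h1 := Pool.Agent.Y627.KW.fA_an L lam w
    rwa [show Pool.Agent.Y627.KW.fA L lam w = fun z => value L lam z w from funext fun z => hval w z] at h1
  have hind : Pool.Agent.X255.RH.Indep (off L) (fun (w : Fin r ⊕ Fin 2) z => value L lam z w) := by
    have h1 := Pool.Agent.X255.RH.indep_of_aindepS (Pool.Agent.Y627.KW.fA_indep L lam hlam)
    rwa [show Pool.Agent.Y627.KW.fA L lam = fun w z => value L lam z w from
      funext fun w => funext fun z => hval w z] at h1
  have h1 := Pool.Agent.X255.RH.main_all (g := g) hg hpre hop (fun _ => (off L)) (fun _ => htame) han hind ξ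
  refine ⟨h1, fun k R η ε hη hε => ?_⟩
  have h2 := Pool.Agent.X255.RH.main_eps (g := g) hg hpre hop han hind (off L) ξ k R η ε hη hε
  exact h2

end Pool.Agent.Results.MP_2ad15a_nt.ConjugatePoints
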